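import Pool.Agent.Q150.FlipFF.Res

/-!
# Few Steiner points do not make the flip distance linear

The definitions of the statement are in `Pool.Agent.Q107.Flip.Defs`, except `FaceToFace`, which is in
`Pool.Agent.Q150.FlipFF.Res`.
-/

set_option autoImplicit false

namespace Pool.Agent.Results.MP_fe41f2_co.FewSteinerPoints

open Pool.Agent.Q107.Flip Q150.FlipFF Filter Topology

/-- (1) The negated form of the question: for every `k(n) = o(n)` and every constant `C` there are a
simple polygon `P` with `n` vertices and two (face to face) triangulations of `P` such that every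
insertion of at most `k(n)` Steiner points leaves the flip distance larger than `C n`.
(2) Even a linear number of Steiner points does not suffice: for every `C` there is `δ > 0` such that
the same holds for at most `δ n` Steiner points and arbitrarily large `n`. -/
theorem result :
    (∀ k : ℕ → ℕ, Tendsto (fun n => (k n : ℝ) / n) atTop (𝓝 0) → ∀ C : ℝ,
      ∃ (p : List Pt) (P : Set Pt) (T₁ T₂ : Finset (Finset Pt)), IsSimplePolygon p P ∧
        IsTriangulation P p.toFinset T₁ ∧ IsTriangulation P p.toFinset T₂ ∧
        FaceToFace p.toFinset T₁ ∧ FaceToFace p.toFinset T₂ ∧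
        ∀ (q : List Pt) (T₁' T₂' : Finset (Finset Pt)), q.length ≤ k p.length →
          InsertPoints P q T₁ T₁' → InsertPoints P q T₂ T₂' →
            ∀ N : ℕ, FlipPath N T₁' T₂' → C * p.length < N) ∧
    (∀ C : ℝ, ∃ δ : ℝ, 0 < δ ∧ ∀ n₀ : ℕ,
      ∃ (p : List Pt) (P : Set Pt) (T₁ T₂ : Finset (Finset Pt)),
        n₀ ≤ p.length ∧ IsSimplePolygon p P ∧
        IsTriangulation P p.toFinset T₁ ∧ IsTriangulation P p.toFinset T₂ ∧
        FaceToFace p.toFinset T₁ ∧ FaceToFace p.toFinset T₂ ∧
        ∀ (q : List Pt) (T₁' T₂' : Finset (Finset Pt)), (q.length : ℝ) ≤ δ * p.length →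
          InsertPoints P q T₁ T₁' → InsertPoints P q T₂ T₂' →
            ∀ N : ℕ, FlipPath N T₁' T₂' → C * p.length < N) :=
  result_ff

end Pool.Agent.Results.MP_fe41f2_co.FewSteinerPoints
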